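import Mathlib

/-! Strongly equistable graphs are not closed under substitution. -/

namespace Pool.Agent.Results.MP_89a31a_co.NotClosed

open Finset

/-- `S` is a maximal stable set of `G`. -/
def MaxStable {V : Type} (G : SimpleGraph V) (S : Finset V) : Prop :=
  Maximal (fun X : Finset V => G.IsIndepSet (X : Set V)) S

/-- Strongly equistable graphs. -/
def StronglyEquistable {V : Type} (G : SimpleGraph V) : Prop :=
  ∀ T : Finset V, T.Nonempty → ¬ MaxStable G T → ∀ γ : ℝ, γ ≤ 1 →
    ∃ φ : V → ℝ, (∀ x, 0 < φ x) ∧ (∀ S, MaxStable G S → ∑ x ∈ S, φ x = 1) ∧ ∑ x ∈ T, φ x ≠ γ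

/-- Adjacency in the graph obtained by substituting `H` for the vertex `v` of `G`. -/
def substAdj {V W : Type} (G : SimpleGraph V) (v : V) (H : SimpleGraph W) :
    {x : V // x ≠ v} ⊕ W → {x : V // x ≠ v} ⊕ W → Prop
  | .inl a, .inl b => G.Adj a.1 b.1
  | .inl a, .inr _ => G.Adj a.1 v
  | .inr _, .inl b => G.Adj v b.1
  | .inr a, .inr b => H.Adj a b

/-- The graph obtained by substituting `H` for the vertex `v` of `G`. -/
def subst {V W : Type} (G : SimpleGraph V) (v : V) (H : SimpleGraph W) :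
    SimpleGraph ({x : V // x ≠ v} ⊕ W) where
  Adj := substAdj G v H
  symm := ⟨by rintro (a | a) (b | b) h <;> exact h.symm⟩
  loopless := ⟨by rintro (a | a) h <;> exact h.ne rfl⟩

def MS {V : Type} (G : SimpleGraph V) (S : Finset V) : Prop :=
  (∀ a ∈ S, ∀ b ∈ S, ¬ G.Adj a b) ∧ ∀ g, g ∉ S → ∃ e ∈ S, G.Adj g e

instance {V : Type} [Fintype V] [DecidableEq V] (G : SimpleGraph V) [DecidableRel G.Adj]
    (S : Finset V) : Decidable (MS G S) := by unfold MS; infer_instance

lemma maxStable_iff {V : Type} (G : SimpleGraph V) (S : Finset V) :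
    MaxStable G S ↔ MS G S := by
  classical
  unfold MS
  have ind : ∀ X : Finset V, G.IsIndepSet (X : Set V) ↔ ∀ a ∈ X, ∀ b ∈ X, ¬ G.Adj a b :=
    fun X => ⟨fun h a ha b hb hab => h ha hb hab.ne hab, fun h a ha b hb _ => h a ha b hb⟩
  unfold MaxStable
  simp only [ind]
  constructor
  · rintro ⟨h1, h2⟩
    refine ⟨h1, fun g hg => ?_⟩
    by_contra hc
    push Not at hc
    refine hg (h2 (y := insert g S) ?_ (subset_insert _ _) (mem_insert_self _ _))
    intro a ha b hb hab
    rcases mem_insert.1 ha with rfl | ha' <;> rcases mem_insert.1 hb with rfl | hb'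
    · exact hab.ne rfl
    · exact hc b hb' hab
    · exact hc a ha' hab.symm
    · exact h1 a ha' b hb' hab
  · rintro ⟨h1, h2⟩
    refine ⟨h1, fun X hX hSX g hg => ?_⟩
    by_contra hc
    obtain ⟨e, he, hge⟩ := h2 g hc
    exact hX g hg e (hSX he) hge

def p (e : Fin 26) : ℕ := [0, 0, 0, 1, 1, 2, 2, 2, 3, 3, 3, 4, 4, 4, 4, 9, 9, 10, 10, 11, 11, 12, 12, 13, 14, 15].getD e 0
def q (e : Fin 26) : ℕ := [1, 5, 6, 7, 8, 6, 8, 13, 5, 7, 9, 5, 6, 7, 8, 10, 16, 11, 14, 12, 15, 13, 16, 14, 15, 16].getD e 0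
def w0 (e : Fin 26) : ℕ := [2, 3, 3, 3, 3, 3, 3, 2, 3, 3, 2, 2, 2, 2, 2, 2, 4, 3, 3, 2, 3, 4, 2, 2, 3, 2].getD e 0
def w1 (e : Fin 26) : ℕ := [202664, 292268, 305068, 300002, 297334, 295624, 298594, 205782, 313354, 297756, 188890, 194378, 199308, 202242, 204072, 202630, 408480, 296460, 300910, 203612, 299928, 400034, 196354, 194184, 304906, 195166].getD e 0

def G0 : SimpleGraph (Fin 26) where
  Adj e f := p e ≠ p f ∧ p e ≠ q f ∧ q e ≠ p f ∧ q e ≠ q f
  symm := ⟨fun _ _ h => ⟨h.1.symm, h.2.2.1.symm, h.2.1.symm, h.2.2.2.symm⟩⟩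
  loopless := ⟨fun _ h => h.1 rfl⟩

instance : DecidableRel G0.Adj := fun e f => by unfold G0; infer_instance

def st (x : Fin 17) : Finset (Fin 26) := univ.filter (fun e => p e = x ∨ q e = x)

lemma st_max (x : Fin 17) : MaxStable G0 (st x) := by
  rw [maxStable_iff]; revert x; decide +kernel

lemma tri : ∀ e f : Fin 26, e ≠ f → ¬ G0.Adj e f →
    ∃ x : Fin 17, ∀ g, ¬ G0.Adj g e → ¬ G0.Adj g f → p g = x ∨ q g = x := by decide +kernel

lemma max_st (S : Finset (Fin 26)) (h : MaxStable G0 S) : ∃ x, S = st x := by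
  have h' := (maxStable_iff _ _).1 h
  have : ∃ x, S ⊆ st x := by
    by_cases h2 : ∃ e ∈ S, ∃ f ∈ S, e ≠ f
    · obtain ⟨e, he, f, hf, hef⟩ := h2
      obtain ⟨x, hx⟩ := tri e f hef (h'.1 e he f hf)
      exact ⟨x, fun g hg => by simpa [st] using hx g (h'.1 g hg e he) (h'.1 g hg f hf)⟩
    · push Not at h2
      rcases S.eq_empty_or_nonempty with rfl | ⟨e, he⟩
      · exact ⟨0, empty_subset _⟩
      · have : ∀ e : Fin 26, ∃ x, e ∈ st x := by decide +kernel
        obtain ⟨x, hx⟩ := this e
        exact ⟨x, fun g hg => h2 e he g hg ▸ hx⟩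
  obtain ⟨x, hx⟩ := this
  exact ⟨x, h.eq_of_le (st_max x).1 hx⟩

def good (T : List (Fin 26)) : Prop := T = [] ∨ ∃ x, T.toFinset = st x

instance (T) : Decidable (good T) := by unfold good; infer_instance

def go : List (Fin 26) → ℕ → ℕ → List (Fin 26) → Bool
  | [], s, t, T => 100000 * s != t || decide (good T)
  | e :: L, s, t, T => go L s t T && (8 < s + w0 e || go L (s + w0 e) (t + w1 e) (e :: T))

lemma go_spec {l L : List (Fin 26)} (h : l.Sublist L) : ∀ s t T, go L s t T = true →
    s + (l.map w0).sum ≤ 8 → 100000 * (s + (l.map w0).sum) = t + (l.map w1).sum →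
    good (l.reverse ++ T) := by
  induction h with
  | slnil => intro s t T h _ h2; simp at h2; simpa [go, h2] using h
  | cons e _ ih =>
    intro s t T h
    simp only [go, Bool.and_eq_true] at h
    exact ih s t T h.1
  | cons_cons e _ ih =>
    intro s t T h h1 h2
    simp only [go, Bool.and_eq_true, Bool.or_eq_true, decide_eq_true_eq, List.map_cons,
      List.sum_cons] at h h1 h2
    have := ih _ _ _ (h.2.resolve_left (by omega)) (by omega) (by omega)
    simpa using this

lemma key (T : Finset (Fin 26)) (h0 : T.Nonempty) (h1 : ∑ e ∈ T, w0 e ≤ 8)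
    (h2 : 100000 * ∑ e ∈ T, w0 e = ∑ e ∈ T, w1 e) : ∃ x, T = st x := by
  obtain ⟨l, hs, hn, hT⟩ : ∃ l : List (Fin 26), l.Sublist (List.finRange 26) ∧ l.Nodup ∧
      l.toFinset = T := ⟨(List.finRange 26).filter (· ∈ T), List.filter_sublist,
        (List.nodup_finRange 26).filter _, by ext e; simp⟩
  have e0 := List.sum_toFinset w0 hn
  have e1 := List.sum_toFinset w1 hn
  rw [hT] at e0 e1
  have := go_spec hs 0 0 [] (by decide +kernel)
    (by rw [← e0, zero_add]; exact h1) (by rw [← e0, ← e1, zero_add, zero_add]; exact h2)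
  rcases this with h | ⟨x, hx⟩
  · simp only [List.append_nil, List.reverse_eq_nil_iff] at h
    rw [← hT, h] at h0
    simp at h0
  · exact ⟨x, by simpa [hT] using hx⟩

lemma se_G0 : StronglyEquistable G0 := by
  intro T hT hn γ hγ
  by_contra hc
  push Not at hc
  have a0 := hc (fun e => (w0 e : ℝ) / 8) (fun e => by
      have : ∀ e, 0 < w0 e := by decide +kernel
      have := this e
      positivity) (fun S hS => by
      obtain ⟨x, rfl⟩ := max_st S hS
      have : ∀ x, ∑ e ∈ st x, w0 e = 8 := by decide +kernel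
      rw [← sum_div, ← Nat.cast_sum, this]; norm_num)
  have a1 := hc (fun e => (w1 e : ℝ) / 800000) (fun e => by
      have : ∀ e, 0 < w1 e := by decide +kernel
      have := this e
      positivity) (fun S hS => by
      obtain ⟨x, rfl⟩ := max_st S hS
      have : ∀ x, ∑ e ∈ st x, w1 e = 800000 := by decide +kernel
      rw [← sum_div, ← Nat.cast_sum, this]; norm_num)
  rw [← sum_div, ← Nat.cast_sum] at a0 a1
  obtain ⟨x, rfl⟩ := key T hT
    (by exact_mod_cast (show ((∑ e ∈ T, w0 e : ℕ) : ℝ) ≤ 8 by linarith))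
    (by exact_mod_cast (show (100000 : ℝ) * (∑ e ∈ T, w0 e : ℕ) = (∑ e ∈ T, w1 e : ℕ) by linarith))
  exact hn (st_max x)

lemma se_K2 : StronglyEquistable (⊤ : SimpleGraph (Fin 2)) := by
  intro T hT hn γ hγ
  rw [maxStable_iff] at hn
  refine ⟨fun _ => 1, fun _ => one_pos, fun S hS => ?_, ?_⟩
  · rw [maxStable_iff] at hS
    have : S.card = 1 := by revert S; decide
    simp [this]
  · have : T.card = 2 := by revert T; decide
    simp only [sum_const, this]
    norm_num
    linarith

instance : DecidableRel (subst G0 0 (⊤ : SimpleGraph (Fin 2))).Adj := by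
  rintro (a | a) (b | b) <;> (dsimp only [subst, substAdj]; infer_instance)

def i (e : Fin 25) : {x : Fin 26 // x ≠ 0} ⊕ Fin 2 := .inl ⟨e.succ, Fin.succ_ne_zero e⟩

theorem result : ∃ (G : SimpleGraph (Fin 26)) (H : SimpleGraph (Fin 2)) (v : Fin 26),
    StronglyEquistable G ∧ StronglyEquistable H ∧ ¬ StronglyEquistable (subst G v H) := by
  refine ⟨G0, ⊤, 0, se_G0, se_K2, fun h => ?_⟩
  obtain ⟨φ, -, h1, h2⟩ := h {.inr 0, .inr 1, i 6, i 9}
    (by decide) (by rw [maxStable_iff]; decide +kernel) 1 le_rfl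
  have s0 := h1 {.inr 0, i 0, i 1}
    (by rw [maxStable_iff]; decide +kernel)
  rw [sum_insert (by decide), sum_insert (by decide), sum_singleton] at s0
  have s1 := h1 {.inr 1, i 2, i 3}
    (by rw [maxStable_iff]; decide +kernel)
  rw [sum_insert (by decide), sum_insert (by decide), sum_singleton] at s1
  have s2 := h1 {i 4, i 5, i 6}
    (by rw [maxStable_iff]; decide +kernel)
  rw [sum_insert (by decide), sum_insert (by decide), sum_singleton] at s2
  have s3 := h1 {i 7, i 8, i 9}
    (by rw [maxStable_iff]; decide +kernel)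
  rw [sum_insert (by decide), sum_insert (by decide), sum_singleton] at s3
  have s4 := h1 {i 10, i 11, i 12, i 13}
    (by rw [maxStable_iff]; decide +kernel)
  rw [sum_insert (by decide), sum_insert (by decide), sum_insert (by decide), sum_singleton] at s4
  have s5 := h1 {i 0, i 7, i 10}
    (by rw [maxStable_iff]; decide +kernel)
  rw [sum_insert (by decide), sum_insert (by decide), sum_singleton] at s5
  have s6 := h1 {i 1, i 4, i 11}
    (by rw [maxStable_iff]; decide +kernel)
  rw [sum_insert (by decide), sum_insert (by decide), sum_singleton] at s6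
  have s7 := h1 {i 2, i 8, i 12}
    (by rw [maxStable_iff]; decide +kernel)
  rw [sum_insert (by decide), sum_insert (by decide), sum_singleton] at s7
  have s8 := h1 {i 3, i 5, i 13}
    (by rw [maxStable_iff]; decide +kernel)
  rw [sum_insert (by decide), sum_insert (by decide), sum_singleton] at s8
  rw [sum_insert (by decide), sum_insert (by decide), sum_insert (by decide), sum_singleton] at h2
  exact h2 (by linarith)

end Pool.Agent.Results.MP_89a31a_co.NotClosed
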